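import Pool.Agent.Q155.NB.Alg

/-!
# Systems bordered by random vectors (project NB): the number of the admissible vectors and the mean number
of the solutions
-/

set_option autoImplicit false
set_option linter.unusedVariables false
set_option linter.unusedSectionVars false

open scoped Classical

namespace Pool.Agent.Q14.NB

open Finset
open scoped Matrix
open Q155.NL (Px)
open Q155.NB
open Pool.Agent.Q1.PT (avg avg_hom avg_mono)

/-! ### Linear algebra over the field with two elements -/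

theorem dbl {X : Type} [AddCommGroup X] [Module (ZMod 2) X] (x : X) : x + x = 0 := by
  have h : (2 : ZMod 2) • x = 0 := by rw [show (2 : ZMod 2) = 0 from rfl, zero_smul]
  rwa [two_smul] at h

theorem eq_of_add {X : Type} [AddCommGroup X] [Module (ZMod 2) X] {x y : X} (h : x + y = 0) : x = y := by
  have h2 := dbl y
  exact add_right_cancel (h.trans h2.symm)

theorem surj_dual {X Y : Type} [AddCommGroup X] [Module (ZMod 2) X] [AddCommGroup Y] [Module (ZMod 2) Y]
    (T : X →ₗ[ZMod 2] Y) (h : ∀ φ : Y →ₗ[ZMod 2] ZMod 2, (∀ x, φ (T x) = 0) → φ = 0) :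
    Function.Surjective T := by
  rw [← LinearMap.range_eq_top]
  by_contra hne
  obtain ⟨f, hf, hle⟩ := Submodule.exists_le_ker_of_lt_top _ (lt_top_iff_ne_top.2 hne)
  exact hf (h f fun x => hle (LinearMap.mem_range_self T x))

theorem card_ker {X Y : Type} [AddCommGroup X] [Module (ZMod 2) X] [AddCommGroup Y] [Module (ZMod 2) Y]
    (T : X →ₗ[ZMod 2] Y) (h : Function.Surjective T) :
    Nat.card X = Nat.card (LinearMap.ker T) * Nat.card Y := by
  rw [Submodule.card_eq_card_quotient_mul_card (LinearMap.ker T),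
    Nat.card_congr (T.quotKerEquivOfSurjective h).toEquiv]

section
variable {G F Z n : Type} [AddCommGroup G] [Module (ZMod 2) G] [AddCommGroup F] [Module (ZMod 2) F]
  [AddCommGroup Z] [Module (ZMod 2) Z] [Fintype n]

/-- the equations for the extended unknowns -/
noncomputable def ex (D : Sd G F) (h : n → F) (R : ((n → ZMod 2) × G) →ₗ[ZMod 2] Z) :
    ((n → ZMod 2) × D.𝓛) →ₗ[ZMod 2] F × Z where
  toFun z := (∑ i, z.1 i • h i + z.2.1.2, R (z.1, z.2.1.1))
  map_add' x y := by
    refine Prod.ext ?_ ?_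
    · simp only [Prod.fst_add, Prod.snd_add, Pi.add_apply, add_smul, sum_add_distrib, Submodule.coe_add]
      abel
    · show R _ = R _ + R _
      rw [← map_add]
      rfl
  map_smul' c x := by
    refine Prod.ext ?_ ?_
    · simp only [Prod.smul_fst, Prod.smul_snd, Pi.smul_apply, smul_eq_mul, mul_smul, smul_sum, smul_add,
        Submodule.coe_smul, RingHom.id_apply]
    · show R _ = c • R _
      rw [← map_smul]
      rfl

theorem ex_apply (D : Sd G F) (h : n → F) (R : ((n → ZMod 2) × G) →ₗ[ZMod 2] Z) (z : (n → ZMod 2) × D.𝓛) :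
    ex D h R z = (∑ i, z.1 i • h i + z.2.1.2, R (z.1, z.2.1.1)) := rfl

theorem ker_card (D : Sd G F) (h : n → F) (R : ((n → ZMod 2) × G) →ₗ[ZMod 2] Z) :
    Nat.card (LinearMap.ker (ex D h R)) = Nat.card {x : (n → ZMod 2) × G // Ad D h x ∧ R x = 0} := by
  have key : ∀ z : LinearMap.ker (ex D h R), ∑ i, z.1.1 i • h i = z.1.2.1.2 ∧ R (z.1.1, z.1.2.1.1) = 0 := by
    intro z
    have h1 := z.2
    rw [LinearMap.mem_ker, ex_apply] at h1
    exact ⟨eq_of_add (congrArg Prod.fst h1), congrArg Prod.snd h1⟩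
  apply Nat.card_congr
  refine ⟨fun z => ⟨(z.1.1, z.1.2.1.1), ?_, (key z).2⟩,
    fun x => ⟨(x.1.1, ⟨(x.1.2, ∑ i, x.1.1 i • h i), x.2.1⟩), ?_⟩, ?_, ?_⟩
  · unfold Ad
    simp only
    rw [(key z).1]
    exact z.1.2.2
  · rw [LinearMap.mem_ker, ex_apply]
    refine Prod.ext ?_ x.2.2
    exact dbl _
  · intro z
    refine Subtype.ext (Prod.ext rfl (Subtype.ext (Prod.ext rfl ?_)))
    exact (key z).1
  · intro x
    rfl

theorem ad_card [Finite G] [Finite F] (D : Sd G F) (h : n → F) (R : ((n → ZMod 2) × G) →ₗ[ZMod 2] Z)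
    (hs : Function.Surjective (ex D h R)) :
    Nat.card {x : (n → ZMod 2) × G // Ad D h x ∧ R x = 0} * (Nat.card F * Nat.card Z) =
      Nat.card D.𝓛 * 2 ^ Fintype.card n := by
  have h1 := card_ker (ex D h R) hs
  rw [ker_card, Nat.card_prod, Nat.card_prod] at h1
  rw [← h1, mul_comm (Nat.card D.𝓛)]
  congr 1
  rw [Nat.card_eq_fintype_card, Fintype.card_fun, ZMod.card]

/-- the rows, as a linear map -/
noncomputable def rowL (D : Sd G F) (h : n → F) (M : Matrix n n (ZMod 2)) :
    ((n → ZMod 2) × G) →ₗ[ZMod 2] (n → ZMod 2) where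
  toFun x := fun i => row D h M x i
  map_add' x y := by
    funext i
    simp only [row, Prod.fst_add, Prod.snd_add, Matrix.mulVec_add, Pi.add_apply, map_add,
      LinearMap.add_apply]
    ring
  map_smul' c x := by
    funext i
    simp only [row, Prod.smul_fst, Prod.smul_snd, Matrix.mulVec_smul, Pi.smul_apply, map_smul,
      LinearMap.smul_apply, smul_eq_mul, RingHom.id_apply]
    ring

end

section
variable {G F τ ι : Type} [AddCommGroup G] [Module (ZMod 2) G] [AddCommGroup F] [Module (ZMod 2) F]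
  [Fintype τ] [Fintype ι]

theorem span {D : Sd G F} {K : Bl τ ι F} {V : Finset ι} (hM : Mc K V) {l : F →ₗ[ZMod 2] ZMod 2}
    (h : ∀ k ∈ V, l (K.hJ k) = 0) : l = 0 := by
  refine (hM 0 l fun k hk => ?_).2
  rw [h k hk]
  simp

/-- JOB NB-ADC -/
theorem adc : S_ADC := by
  intro G F _ _ _ _ _ _ D τ ι _ _ K V hM
  have hs : Function.Surjective (ex D (ch K V) (0 : ((τ ⊕ V → ZMod 2) × G) →ₗ[ZMod 2] PUnit)) := by
    apply surj_dual
    intro φ hφ
    have h0 : (φ ∘ₗ LinearMap.inl (ZMod 2) F PUnit) = 0 := by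
      apply span (D := D) hM
      intro k hk
      have h1 := hφ (Pi.single (Sum.inr ⟨k, hk⟩) 1, 0)
      rw [ex_apply] at h1
      have h2 : ∑ i, (Pi.single (Sum.inr ⟨k, hk⟩) 1 : τ ⊕ V → ZMod 2) i • ch K V i = K.hJ k := by
        rw [sum_eq_single (Sum.inr ⟨k, hk⟩)]
        · rw [Pi.single_eq_same, one_smul]
          rfl
        · intro b _ hb
          rw [Pi.single_eq_of_ne hb, zero_smul]
        · intro hb
          exact absurd (mem_univ _) hb
      simp only [h2] at h1
      rw [← h1]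
      rw [LinearMap.comp_apply, LinearMap.inl_apply]
      congr 1
      refine Prod.ext ?_ rfl
      show K.hJ k = K.hJ k + 0
      rw [add_zero]
    refine LinearMap.ext fun z => ?_
    have h3 := LinearMap.congr_fun h0 z.1
    rw [LinearMap.comp_apply, LinearMap.inl_apply] at h3
    exact h3
  have h1 := ad_card D (ch K V) _ hs
  rw [show Nat.card PUnit.{1} = 1 from Nat.card_unique, mul_one, Fintype.card_sum, Fintype.card_coe] at h1
  rw [← h1]
  congr 1
  apply Nat.card_congr
  exact Equiv.subtypeEquivRight fun x => ⟨fun h => ⟨h, rfl⟩, fun h => h.1⟩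

/-! ### The rows of the random matrix -/

theorem row_eq (D : Sd G F) (K : Bl τ ι F) (V W : Finset ι) (p : Px ι) (x : (τ ⊕ V → ZMod 2) × G)
    (i : τ ⊕ V) : row D (ch K V) (cm K V W p) x i =
      ∑ u, cm K V W p i (Sum.inl u) * x.1 (Sum.inl u) + ∑ j : V, cm K V W p i (Sum.inr j) * x.1 (Sum.inr j) +
        D.χ x.2 (ch K V i) := by
  unfold row
  rw [Matrix.mulVec, dotProduct, Fintype.sum_sum_type]

/-- the random part of the matrix -/
noncomputable def qf (W : Finset ι) (p : Px ι) (i j : ι) : ZMod 2 :=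
  if i = j then p.2 i + ∑ l ∈ W, (p.1 i l + p.1 l i) else p.1 i j + p.1 j i

theorem qf_add (W : Finset ι) (p q : Px ι) (i j : ι) : qf W (p + q) i j = qf W p i j + qf W q i j := by
  unfold qf
  by_cases h : i = j
  · rw [if_pos h, if_pos h, if_pos h]
    simp only [Prod.fst_add, Prod.snd_add, Pi.add_apply, sum_add_distrib]
    ring
  · rw [if_neg h, if_neg h, if_neg h]
    simp only [Prod.fst_add, Pi.add_apply]
    ring

theorem cm_inr (K : Bl τ ι F) (V W : Finset ι) (p : Px ι) (i j : V) :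
    cm K V W p (Sum.inr i) (Sum.inr j) = cm K V W 0 (Sum.inr i) (Sum.inr j) + qf W p i j := by
  unfold cm qf
  rw [Matrix.fromBlocks_apply₂₂, Matrix.fromBlocks_apply₂₂, Matrix.of_apply, Matrix.of_apply]
  by_cases h : i = j
  · rw [if_pos h, if_pos h, if_pos (congrArg Subtype.val h)]
    simp only [Prod.fst_zero, Prod.snd_zero, Pi.zero_apply, sum_add_distrib, sum_const_zero]
    ring
  · rw [if_neg h, if_neg h, if_neg (fun h2 => h (Subtype.ext h2))]
    simp only [Prod.fst_zero, Pi.zero_apply]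
    ring

/-- the random part of the rows -/
noncomputable def fi (V W : Finset ι) (w : V → ZMod 2) : Px ι →+ (V → ZMod 2) :=
  AddMonoidHom.mk' (fun p i => ∑ j : V, qf W p i j * w j) (by
    intro p q
    funext i
    rw [Pi.add_apply, ← sum_add_distrib]
    refine sum_congr rfl fun j _ => ?_
    rw [qf_add, add_mul])

theorem fi_apply (V W : Finset ι) (w : V → ZMod 2) (p : Px ι) (i : V) :
    fi V W w p i = ∑ j : V, qf W p i j * w j := rfl

theorem row_inr (D : Sd G F) (K : Bl τ ι F) (V W : Finset ι) (p : Px ι) (x : (τ ⊕ V → ZMod 2) × G)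
    (i : V) : row D (ch K V) (cm K V W p) x (Sum.inr i) =
      row D (ch K V) (cm K V W 0) x (Sum.inr i) + fi V W (fun j => x.1 (Sum.inr j)) p i := by
  rw [row_eq, row_eq, fi_apply]
  have h1 : ∀ u, cm K V W p (Sum.inr i) (Sum.inl u) = cm K V W 0 (Sum.inr i) (Sum.inl u) := fun u => rfl
  simp only [h1, cm_inr K V W p, add_mul, sum_add_distrib]
  ring

theorem row_inl (D : Sd G F) (K : Bl τ ι F) (V W : Finset ι) (p : Px ι) (x : (τ ⊕ V → ZMod 2) × G)
    (u : τ) : row D (ch K V) (cm K V W p) x (Sum.inl u) = row D (ch K V) (cm K V W 0) x (Sum.inl u) := by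
  rw [row_eq, row_eq]
  rfl

theorem zmod_cases (a : ZMod 2) : a = 0 ∨ a = 1 := by
  revert a
  decide

theorem fi_surj (V W : Finset ι) (w : V → ZMod 2) (l₀ : V) (hl : w l₀ ≠ 0) :
    Function.Surjective (fi V W w) := by
  have hl1 : w l₀ = 1 := (zmod_cases _).resolve_left hl
  intro y
  obtain ⟨a, ha⟩ : ∃ a : ι → ι → ZMod 2, ∀ (k : V) (l : ι),
      a k l = if l = l₀ ∧ w k = 0 then y k else 0 :=
    ⟨fun k l => if hk : k ∈ V then (if l = l₀ ∧ w ⟨k, hk⟩ = 0 then y ⟨k, hk⟩ else 0) else 0,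
      fun k l => by simp only [dif_pos k.2]⟩
  obtain ⟨b, hb⟩ : ∃ b : ι → ZMod 2, ∀ k : V, b k = y k + fi V W w (a, 0) k :=
    ⟨fun k => if hk : k ∈ V then y ⟨k, hk⟩ + fi V W w (a, 0) ⟨k, hk⟩ else 0,
      fun k => by simp only [dif_pos k.2]⟩
  refine ⟨(a, 0) + (0, b), ?_⟩
  rw [map_add]
  funext i
  rw [Pi.add_apply]
  have h1 : fi V W w (0, b) i = b i * w i := by
    rw [fi_apply, sum_eq_single i]
    · unfold qf
      rw [if_pos rfl]
      simp
    · intro j _ hj
      unfold qf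
      rw [if_neg (fun h => hj (Subtype.ext h.symm))]
      simp
    · intro h
      exact absurd (mem_univ i) h
  rw [h1, hb]
  rcases zmod_cases (w i) with h | h
  · rw [h, mul_zero, add_zero, fi_apply, sum_eq_single l₀]
    · have hne : (i : ι) ≠ l₀ := by
        intro h2
        have h3 : i = l₀ := Subtype.ext h2
        rw [h3, hl1] at h
        exact one_ne_zero h
      unfold qf
      rw [if_neg hne, hl1, mul_one]
      simp only
      rw [ha i l₀, ha l₀ i, if_pos ⟨rfl, h⟩, if_neg (fun h2 => hne h2.1), add_zero]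
    · intro j _ hj
      by_cases hij : i = j
      · rw [← hij, h, mul_zero]
      · unfold qf
        rw [if_neg (fun h2 => hij (Subtype.ext h2))]
        simp only
        rw [ha i j, ha j i, if_neg (fun h2 => hj (Subtype.ext h2.1)), if_neg, add_zero, zero_mul]
        rintro ⟨h2, _⟩
        have h3 : i = l₀ := Subtype.ext h2
        rw [h3, hl1] at h
        exact one_ne_zero h
    · intro h2
      exact absurd (mem_univ _) h2
  · rw [h, mul_one, add_comm (y i), ← add_assoc, dbl, zero_add]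

/-- the probability that the rows of `V` vanish -/
theorem prob (D : Sd G F) (K : Bl τ ι F) (V W : Finset ι) (x : (τ ⊕ V → ZMod 2) × G) (l₀ : V)
    (hl : x.1 (Sum.inr l₀) ≠ 0) :
    avg (fun p : Px ι => if ∀ i : V, row D (ch K V) (cm K V W p) x (Sum.inr i) = 0 then (1 : ℝ) else 0) =
      1 / 2 ^ V.card := by
  obtain ⟨c, hc⟩ : ∃ c : V → ZMod 2, ∀ i, c i = row D (ch K V) (cm K V W 0) x (Sum.inr i) := ⟨_, fun _ => rfl⟩
  have h1 : (fun p : Px ι => if ∀ i : V, row D (ch K V) (cm K V W p) x (Sum.inr i) = 0 then (1 : ℝ) else 0) =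
      fun p : Px ι => (fun y : V → ZMod 2 => if y = c then (1 : ℝ) else 0)
        (fi V W (fun j => x.1 (Sum.inr j)) p) := by
    funext p
    have h2 : (∀ i : V, row D (ch K V) (cm K V W p) x (Sum.inr i) = 0) ↔
        fi V W (fun j => x.1 (Sum.inr j)) p = c := by
      constructor
      · intro h
        funext i
        have h3 := h i
        rw [row_inr, ← hc] at h3
        exact (eq_of_add h3).symm
      · intro h i
        rw [row_inr, ← hc, h]
        exact dbl _
    by_cases h3 : ∀ i : V, row D (ch K V) (cm K V W p) x (Sum.inr i) = 0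
    · rw [if_pos h3]
      simp only
      rw [if_pos (h2.1 h3)]
    · rw [if_neg h3]
      simp only
      rw [if_neg (fun h4 => h3 (h2.2 h4))]
  rw [h1]
  refine (avg_hom (fi V W (fun j => x.1 (Sum.inr j))) (fi_surj V W _ l₀ hl)
    (fun y : V → ZMod 2 => if y = c then (1 : ℝ) else 0)).trans ?_
  unfold avg
  rw [Finset.sum_ite_eq', if_pos (mem_univ _), Fintype.card_fun, ZMod.card, Fintype.card_coe]
  push_cast
  rfl

/-! ### The mean -/

theorem avg_le_of {α : Type} [Fintype α] {f g : α → ℝ} (h : ∀ a, f a ≤ g a) : avg f ≤ avg g := avg_mono h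

theorem avg_sum {α β : Type} [Fintype α] (s : Finset β) (f : β → α → ℝ) :
    avg (fun a => ∑ b ∈ s, f b a) = ∑ b ∈ s, avg (f b) := by
  unfold avg
  rw [sum_comm, sum_div]

theorem avg_zero {α : Type} [Fintype α] : avg (fun _ : α => (0 : ℝ)) = 0 := by
  unfold avg
  rw [sum_const_zero, zero_div]

theorem avg_c {α : Type} [Fintype α] [Nonempty α] (c : ℝ) : avg (fun _ : α => c) = c := by
  unfold avg
  rw [sum_const, nsmul_eq_mul, card_univ]
  have h : (Fintype.card α : ℝ) ≠ 0 := by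
    have := Fintype.card_pos (α := α)
    positivity
  field_simp

/-- the number of the solutions as a sum -/
theorem kc_sum [Fintype G] (D : Sd G F) (K : Bl τ ι F) (V W : Finset ι) (p : Px ι) :
    (kc D K V W p : ℝ) = ∑ x : (τ ⊕ V → ZMod 2) × G,
      if x ∈ Sol D (ch K V) (cm K V W p) then (1 : ℝ) else 0 := by
  unfold kc ks
  rw [sum_boole, Nat.card_eq_fintype_card, Fintype.card_subtype]

theorem ind_le_one (D : Sd G F) (K : Bl τ ι F) (V W : Finset ι) (x : (τ ⊕ V → ZMod 2) × G) :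
    avg (fun p : Px ι => if x ∈ Sol D (ch K V) (cm K V W p) then (1 : ℝ) else 0) ≤ 1 := by
  refine (avg_mono (g := fun _ => (1 : ℝ)) fun p => ?_).trans (le_of_eq (avg_c 1))
  split_ifs <;> norm_num

theorem ind_le (D : Sd G F) (K : Bl τ ι F) (V W : Finset ι) (x : (τ ⊕ V → ZMod 2) × G) (l₀ : V)
    (hl : x.1 (Sum.inr l₀) ≠ 0) :
    avg (fun p : Px ι => if x ∈ Sol D (ch K V) (cm K V W p) then (1 : ℝ) else 0) ≤ 1 / 2 ^ V.card := by
  rw [← prob D K V W x l₀ hl]
  refine avg_mono fun p => ?_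
  by_cases h : x ∈ Sol D (ch K V) (cm K V W p)
  · rw [if_pos h, if_pos fun i => h.2 (Sum.inr i)]
  · rw [if_neg h]
    split_ifs <;> norm_num

theorem card_zero [Fintype G] (V : Finset ι) :
    ((univ.filter fun x : (τ ⊕ V → ZMod 2) × G => ∀ i : V, x.1 (Sum.inr i) = 0).card : ℝ) ≤
      2 ^ Fintype.card τ * Nat.card G := by
  have h1 : (univ.filter fun x : (τ ⊕ V → ZMod 2) × G => ∀ i : V, x.1 (Sum.inr i) = 0).card ≤
      (univ : Finset ((τ → ZMod 2) × G)).card := by
    apply card_le_card_of_injOn (fun x => (fun u => x.1 (Sum.inl u), x.2))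
    · intro x _
      exact mem_coe.2 (mem_univ _)
    · intro x hx y hy hxy
      rw [mem_coe, mem_filter] at hx hy
      have hxy' : ((fun u => x.1 (Sum.inl u), x.2) : (τ → ZMod 2) × G) = (fun u => y.1 (Sum.inl u), y.2) := hxy
      obtain ⟨e1, e2⟩ := Prod.mk.inj hxy'
      refine Prod.ext ?_ e2
      funext i
      rcases i with u | i
      · exact congrFun e1 u
      · rw [hx.2 i, hy.2 i]
  rw [card_univ, Fintype.card_prod, Fintype.card_fun, ZMod.card] at h1
  rw [Nat.card_eq_fintype_card]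
  exact_mod_cast h1

theorem mean1 [Finite G] (D : Sd G F) (K : Bl τ ι F) (V W : Finset ι) :
    avg (fun p : Px ι => (kc D K V W p : ℝ)) ≤ 2 ^ (Fintype.card τ + 1) * Nat.card G := by
  have := Fintype.ofFinite G
  simp only [kc_sum]
  rw [avg_sum]
  have h1 : ∀ x ∈ (univ : Finset ((τ ⊕ V → ZMod 2) × G)),
      avg (fun p : Px ι => if x ∈ Sol D (ch K V) (cm K V W p) then (1 : ℝ) else 0) ≤
        (if ∀ i : V, x.1 (Sum.inr i) = 0 then (1 : ℝ) else 0) + 1 / 2 ^ V.card := by
    intro x _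
    by_cases h : ∀ i : V, x.1 (Sum.inr i) = 0
    · rw [if_pos h]
      have h2 := ind_le_one D K V W x
      have h3 : (0 : ℝ) ≤ 1 / 2 ^ V.card := by positivity
      linarith
    · rw [if_neg h, zero_add]
      push Not at h
      obtain ⟨l₀, hl⟩ := h
      exact ind_le D K V W x l₀ hl
  refine (sum_le_sum h1).trans ?_
  rw [sum_add_distrib, sum_boole, sum_const, nsmul_eq_mul, card_univ, Fintype.card_prod, Fintype.card_fun,
    ZMod.card, Fintype.card_sum, Fintype.card_coe]
  have h2 := card_zero (τ := τ) (G := G) V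
  have h3 : ((2 ^ (Fintype.card τ + V.card) * Fintype.card G : ℕ) : ℝ) * (1 / 2 ^ V.card) =
      2 ^ Fintype.card τ * Nat.card G := by
    rw [Nat.card_eq_fintype_card]
    push_cast
    rw [pow_add]
    field_simp
  rw [h3, pow_succ]
  linarith

theorem zero_of {D : Sd G F} {K : Bl τ ι F} {V W : Finset ι} (hM : Mc K V) (hL : Lg D) {p : Px ι}
    {x : (τ ⊕ V → ZMod 2) × G} (h0 : ∀ i : V, x.1 (Sum.inr i) = 0)
    (hx : x ∈ Sol D (ch K V) (cm K V W p)) : x = 0 := by
  obtain ⟨hA, hr⟩ := hx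
  have h1 : ∀ k ∈ V, ∑ u, x.1 (Sum.inl u) * K.C k u + D.χ x.2 (K.hJ k) = 0 := by
    intro k hk
    have h2 := hr (Sum.inr ⟨k, hk⟩)
    rw [row_eq] at h2
    have h3 : ∑ j : V, cm K V W p (Sum.inr ⟨k, hk⟩) (Sum.inr j) * x.1 (Sum.inr j) = 0 :=
      sum_eq_zero fun j _ => by rw [h0 j, mul_zero]
    rw [h3, add_zero] at h2
    rw [← h2]
    congr 1
    exact sum_congr rfl fun u _ => mul_comm _ _
  obtain ⟨h2, h3⟩ := hM _ _ h1
  have h4 : x.1 = 0 := by
    funext i
    rcases i with u | i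
    · exact congrFun h2 u
    · exact h0 i
  refine Prod.ext h4 (hL x.2 _ hA h3)

/-- the rows of `τ` and the condition on the classes are independent -/
theorem surj2 {D : Sd G F} {K : Bl τ ι F} {V : Finset ι} (W : Finset ι) (hR : Rcp D K V) (hM : Mc K V) :
    Function.Surjective (ex D (ch K V) ((LinearMap.funLeft (ZMod 2) (ZMod 2) (Sum.inl : τ → τ ⊕ V)) ∘ₗ
      rowL D (ch K V) (cm K V W 0))) := by
  apply surj_dual
  intro φ hφ
  obtain ⟨l, hl⟩ : ∃ l : F →ₗ[ZMod 2] ZMod 2, l = φ ∘ₗ LinearMap.inl (ZMod 2) F (τ → ZMod 2) := ⟨_, rfl⟩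
  obtain ⟨μ, hμ⟩ : ∃ μ : τ → ZMod 2, ∀ u, μ u = φ (0, Pi.single u 1) := ⟨_, fun _ => rfl⟩
  have hdec : ∀ (e : F) (r : τ → ZMod 2), φ (e, r) = l e + ∑ u, r u * μ u := by
    intro e r
    have h1 : ((e, r) : F × (τ → ZMod 2)) = (e, 0) + ∑ u, r u • ((0, Pi.single u 1) :
        F × (τ → ZMod 2)) := by
      refine Prod.ext ?_ ?_
      · rw [Prod.fst_add, Prod.fst_sum]
        simp
      · rw [Prod.snd_add, Prod.snd_sum]
        simp only [Prod.smul_snd, zero_add]
        funext v
        rw [Finset.sum_apply, sum_eq_single v]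
        · simp
        · intro u _ hu
          rw [Pi.smul_apply, Pi.single_eq_of_ne hu.symm, smul_zero]
        · intro hv
          exact absurd (mem_univ v) hv
    rw [h1, map_add, map_sum, hl]
    congr 1
    refine sum_congr rfl fun u _ => ?_
    rw [map_smul, smul_eq_mul, hμ]
  have h1 : ∀ k ∈ V, l (K.hJ k) + ∑ u, K.B u k * μ u = 0 := by
    intro k hk
    have h2 := hφ (Pi.single (Sum.inr ⟨k, hk⟩) 1, 0)
    rw [ex_apply, hdec] at h2
    have h3 : ∑ i, (Pi.single (Sum.inr ⟨k, hk⟩) 1 : τ ⊕ V → ZMod 2) i • ch K V i = K.hJ k := by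
      rw [sum_eq_single (Sum.inr ⟨k, hk⟩)]
      · rw [Pi.single_eq_same, one_smul]
        rfl
      · intro b _ hb
        rw [Pi.single_eq_of_ne hb, zero_smul]
      · intro hb
        exact absurd (mem_univ _) hb
    have h4 : ∀ u, ((LinearMap.funLeft (ZMod 2) (ZMod 2) (Sum.inl : τ → τ ⊕ V)) ∘ₗ
        rowL D (ch K V) (cm K V W 0)) (Pi.single (Sum.inr ⟨k, hk⟩) 1, 0) u = K.B u k := by
      intro u
      show row D (ch K V) (cm K V W 0) (Pi.single (Sum.inr ⟨k, hk⟩) 1, 0) (Sum.inl u) = _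
      rw [row_eq]
      simp only [map_zero, LinearMap.zero_apply, add_zero]
      rw [sum_eq_zero, zero_add, sum_eq_single ⟨k, hk⟩]
      · rw [Pi.single_eq_same, mul_one]
        rfl
      · intro j _ hj
        rw [Pi.single_eq_of_ne (fun h => hj (Sum.inr_injective h)), mul_zero]
      · intro hb
        exact absurd (mem_univ _) hb
      · intro u' _
        rw [Pi.single_eq_of_ne Sum.inl_ne_inr, mul_zero]
    have h5 : (((0 : D.𝓛) : G × F)).2 = 0 := rfl
    have h6 : (((0 : D.𝓛) : G × F)).1 = 0 := rfl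
    simp only [h3, h5, h6, add_zero, h4] at h2
    exact h2
  obtain ⟨c, hc⟩ : ∃ c : ZMod 2, c = ∑ u, μ u * D.v (K.hU u) := ⟨_, rfl⟩
  obtain ⟨h2, h3⟩ := hM μ (l + c • D.v) (by
    intro k hk
    rw [← h1 k hk]
    have h4 : ∑ u, K.B u k * μ u = ∑ u, μ u * K.C k u + c * D.v (K.hJ k) := by
      rw [hc, sum_mul, ← sum_add_distrib]
      refine sum_congr rfl fun u _ => ?_
      have h5 := hR.uj u k hk
      have h6 : K.B u k = K.C k u + D.v (K.hU u) * D.v (K.hJ k) := by
        rw [← h5, add_comm (K.B u k), ← add_assoc, dbl, zero_add]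
      rw [h6]
      ring
    rw [h4, LinearMap.add_apply, LinearMap.smul_apply, smul_eq_mul]
    ring)
  have h4 : c = 0 := by rw [hc, h2]; simp
  have h5 : l = 0 := by rw [h4, zero_smul, add_zero] at h3; exact h3
  refine LinearMap.ext fun ⟨e, r⟩ => ?_
  rw [hdec, h2, h5]
  simp

theorem mean2 [Finite G] [Finite F] (D : Sd G F) (K : Bl τ ι F) (V W : Finset ι) (hR : Rcp D K V)
    (hM : Mc K V) (hL : Lg D) :
    avg (fun p : Px ι => (kc D K V W p : ℝ)) ≤ 1 + (Nat.card D.𝓛 : ℝ) / Nat.card F := by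
  have := Fintype.ofFinite G
  simp only [kc_sum]
  rw [avg_sum]
  obtain ⟨R, hRd⟩ : ∃ R : ((τ ⊕ V → ZMod 2) × G) →ₗ[ZMod 2] (τ → ZMod 2), R =
      (LinearMap.funLeft (ZMod 2) (ZMod 2) (Sum.inl : τ → τ ⊕ V)) ∘ₗ rowL D (ch K V) (cm K V W 0) := ⟨_, rfl⟩
  have hRx : ∀ x u, R x u = row D (ch K V) (cm K V W 0) x (Sum.inl u) := by
    intro x u
    rw [hRd]
    rfl
  have h1 : ∀ x ∈ (univ : Finset ((τ ⊕ V → ZMod 2) × G)),
      avg (fun p : Px ι => if x ∈ Sol D (ch K V) (cm K V W p) then (1 : ℝ) else 0) ≤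
        (if x = 0 then (1 : ℝ) else 0) + (if Ad D (ch K V) x ∧ R x = 0 then (1 : ℝ) else 0) * (1 / 2 ^ V.card) := by
    intro x _
    have hnn : (0 : ℝ) ≤ (if Ad D (ch K V) x ∧ R x = 0 then (1 : ℝ) else 0) * (1 / 2 ^ V.card) := by
      apply mul_nonneg
      · split_ifs <;> norm_num
      · positivity
    have hnn2 : (0 : ℝ) ≤ (if x = 0 then (1 : ℝ) else 0) := by split_ifs <;> norm_num
    by_cases h : ∀ i : V, x.1 (Sum.inr i) = 0
    · by_cases hx : x = 0
      · rw [if_pos hx]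
        have h2 := ind_le_one D K V W x
        linarith
      · have h2 : (fun p : Px ι => if x ∈ Sol D (ch K V) (cm K V W p) then (1 : ℝ) else 0) = fun _ => (0 : ℝ) := by
          funext p
          rw [if_neg fun h3 => hx (zero_of hM hL h h3)]
        rw [h2, avg_zero]
        linarith
    · push Not at h
      obtain ⟨l₀, hl⟩ := h
      by_cases hA : Ad D (ch K V) x ∧ R x = 0
      · rw [if_pos hA, one_mul]
        have h2 := ind_le D K V W x l₀ hl
        linarith
      · have h2 : (fun p : Px ι => if x ∈ Sol D (ch K V) (cm K V W p) then (1 : ℝ) else 0) = fun _ => (0 : ℝ) := by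
          funext p
          rw [if_neg]
          rintro ⟨h3, h4⟩
          apply hA
          refine ⟨h3, ?_⟩
          funext u
          rw [hRx, ← row_inl D K V W p x u]
          exact h4 (Sum.inl u)
        rw [h2, avg_zero]
        linarith
  refine (sum_le_sum h1).trans ?_
  rw [sum_add_distrib, ← sum_mul, sum_ite_eq' univ (0 : (τ ⊕ V → ZMod 2) × G) (fun _ => (1 : ℝ)),
    if_pos (mem_univ _), sum_boole]
  have h2 : ((univ.filter fun x : (τ ⊕ V → ZMod 2) × G => Ad D (ch K V) x ∧ R x = 0).card : ℝ) =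
      Nat.card {x : (τ ⊕ V → ZMod 2) × G // Ad D (ch K V) x ∧ R x = 0} := by
    rw [Nat.card_eq_fintype_card, Fintype.card_subtype]
  have h3 := ad_card D (ch K V) R (by rw [hRd]; exact surj2 W hR hM)
  rw [h2]
  have hF : (0 : ℝ) < Nat.card F := by exact_mod_cast Nat.card_pos
  have h4 : Nat.card (τ → ZMod 2) = 2 ^ Fintype.card τ := by
    rw [Nat.card_eq_fintype_card, Fintype.card_fun, ZMod.card]
  rw [h4, Fintype.card_sum, Fintype.card_coe] at h3
  have h5 : (Nat.card {x : (τ ⊕ V → ZMod 2) × G // Ad D (ch K V) x ∧ R x = 0} : ℝ) *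
      (Nat.card F * 2 ^ Fintype.card τ) = Nat.card D.𝓛 * 2 ^ (Fintype.card τ + V.card) := by
    exact_mod_cast h3
  have h6 : (Nat.card {x : (τ ⊕ V → ZMod 2) × G // Ad D (ch K V) x ∧ R x = 0} : ℝ) * (1 / 2 ^ V.card) =
      (Nat.card D.𝓛 : ℝ) / Nat.card F := by
    rw [mul_one_div, div_eq_div_iff (by positivity) hF.ne']
    have h7 : (0 : ℝ) < 2 ^ Fintype.card τ := by positivity
    have h8 : (Nat.card {x : (τ ⊕ V → ZMod 2) × G // Ad D (ch K V) x ∧ R x = 0} : ℝ) * Nat.card F *
        2 ^ Fintype.card τ = Nat.card D.𝓛 * 2 ^ V.card * 2 ^ Fintype.card τ := by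
      rw [mul_assoc, h5, pow_add]
      ring
    exact mul_right_cancel₀ h7.ne' h8
  rw [h6]

/-- JOB NB-MEAN -/
theorem mean : S_MEAN := by
  intro G F _ _ _ _ _ _ D τ ι _ _ K V W
  exact ⟨mean1 D K V W, fun hR hM hL => mean2 D K V W hR hM hL⟩

end

end Pool.Agent.Q14.NB
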